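import Pool.Agent.Y166.DP.Asym2

/-!
# Geometric Manin's conjecture fails for a del Pezzo fibration over an elliptic curve

Let `lam` be a transcendental number, let `B` be the elliptic curve `y ^ 2 = x (x - 1) (x - lam)`
over the complex numbers, and let `K` be its function field (the field `KB ℂ lam`, which is the
function field of the Weierstrass curve `crv ℂ lam` of Mathlib; the functions `x`, `y` are
`xB ℂ lam`, `yB ℂ lam`). Let `B'` be the unramified double cover of `B` given by the square root of
`x` (the divisor of `x` is twice a divisor), and let `τ` be its covering involution, which has no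
fixed points. Let `F` be the del Pezzo surface `w ^ 2 = g₀ ^ 4 + g₁ ^ 4 + g₂ ^ 4` of degree two in
the weighted projective space `P(1, 1, 1, 2)`, which is a double cover of the projective plane, and
let `σ` be its involution `w ↦ - w`. Let `X` be the quotient of `B' × F` by `(τ, σ)` and
`π : X → B` the projection.

The action of `(τ, σ)` has no fixed points, hence `X` is a smooth projective threefold, `π` is
smooth, and all its fibres are isomorphic to `F`, so `- K_{X/B}` is relatively ample, and the
fibres are neither the projective plane nor a product of two projective lines. The monodromy of the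
cover `B'` acts on the Picard group of `F` by `σ`, and the invariant part of `Pic F ⊗ ℚ` is the
Picard group of the plane `F / σ`, so the Picard rank of the generic fibre is one. Hence the
conjecture predicts for every `q > 1` a constant `C > 0` such that `N_q(d)` is asymptotic to
`C q ^ d`.

*Sections.* The generic fibre of `π` is the surface `x h ^ 2 = g₀ ^ 4 + g₁ ^ 4 + g₂ ^ 4` over `K` in
`P(1, 1, 1, 2)` (put `w = h √x`). Since `B` is a smooth curve and `π` is projective, the sections of
`π` are the points of this surface over `K`: pairs `(g, h)` with `g ≠ 0` up to the relation
`(g, h) ∼ (f g, f ^ 2 h)`. The pull-back of `O(1)` by the morphism `X → P²` is numerically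
equivalent to `- K_{X/B}`, so the degree of `- K_{X/B}` on the section `C` is the degree of the
morphism `g : B → P²`, which is the height `ht ℂ g`. (The sum over all places of `K` of the minimal
orders of the `g i`, with the sign changed.)

*Components.* Let `d` be a natural number. The set `cone x y d` consists of the pairs
`(g, x h)` of functions with poles only at the point at infinity `O` of `B`, where `g₀, g₁, g₂` have
poles of order at most `d + 1`, such that `x h ^ 2 = g₀ ^ 4 + g₁ ^ 4 + g₂ ^ 4` and `ht ℂ g = d`;
the coordinates of these functions in the basis `1, x, y, x ^ 2, x y, …` of the space of the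
functions that are regular outside `O` make `cone x y d` a locally closed subset of the affine space
`Idx d → ℂ`, defined by algebraic equations and inequations. The first two assertions of the theorem
say that the sections of height `d` are the orbits of the free action
`t · (g, x h) = (t g, t ^ 2 x h)` of the multiplicative group on `cone x y d`. (For a section of
height `d`, the line bundle `O((d + 1) O) ⊗ g^* O(-1)` on `B` has degree one, so it has a unique
nonzero section up to scalars. This also holds in families, so `cone x y d` is a locally trivial
bundle over the reduced space of sections of height `d`, with the multiplicative group as its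
fibre.) So the irreducible components of the space of sections of height `d` are the images of the
irreducible components of `cone x y d`, and their dimension is the dimension of the component of the
cone minus one (`dimSec`).

*Accumulating components.* If the union of the sections in the component is a surface `Y` of `X`,
then the generic fibre of `Y` is a curve over `K`, and its image in the plane over `K` is given by
an equation `Ψ (g₀, g₁, g₂) = 0`, so the component has the property `InSurface`. In the theorem,
`Acc` is an arbitrary collection of components with this property; in particular it may be the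
collection of the accumulating components of the problem (the union of the sections is a surface
that meets the general fibre in an anticanonical line or in a singular anticanonical conic).

*The reason.* The surface `F` contains the one-dimensional family of the nodal rational curves
over the tangent lines of the Fermat quartic curve, which are stable under `σ`. Their twists give a
family of sections of height `2 m` of dimension `2 m + 1`, which exceeds by one the expected
dimension `2 m`, and these sections cover `X`.

The theorem says that
* for odd primes `d` all components of height `d` have dimension at most `d`;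
* for even `d ≥ 4` there is a component of height `d` of dimension at least `d + 1` that is not
  contained in a surface;
* for all sufficiently large `q`, and in particular not for all `q > 1`, the ratio of the counting
  function `N_q(d)` and `q ^ d` does not converge to a positive real number.
-/

set_option autoImplicit false

namespace Pool.Agent.Results.MP_8ae0c1_ag.EllipticTwist

open Pool.Agent.Y166.DP

section
variable {K : Type} [Field K] [Algebra ℂ K]

/-- Every section `(g, h)` of height `d` is given by a point of the cone. -/
def HasRep (x y : K) : Prop :=
  ∀ (d : ℕ) (g : Fin 3 → K) (h : K), g ≠ 0 → x * h ^ 2 = quart g → ht ℂ g = d →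
    ∃ c ∈ cone (k := ℂ) x y d, ∃ f : K, f ≠ 0 ∧ (∀ i, gv x y c i = f * g i) ∧
      xh x y c = f ^ 2 * (x * h)

/-- Two points of the cone that give the same section are in the same orbit of the multiplicative
group. -/
def UniqueRep (x y : K) : Prop :=
  ∀ (d : ℕ) (c c' : Idx d → ℂ), c ∈ cone x y d →
    (∃ f : K, f ≠ 0 ∧ (∀ i, gv x y c' i = f * gv x y c i) ∧ xh x y c' = f ^ 2 * xh x y c) →
    ∃ t : ℂ, t ≠ 0 ∧ (∀ p, c' (.inl p) = t * c (.inl p)) ∧ ∀ p, c' (.inr p) = t ^ 2 * c (.inr p)

/-- The counting function is asymptotic to `C q ^ d` for a constant `C > 0`. -/
def Asymptotic (x y : K) (Acc : ∀ d, Set (Set (Idx d → ℂ))) (q : ℝ) : Prop :=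
  ∃ C : ℝ, 0 < C ∧ Filter.Tendsto (fun d : ℕ => NN x y Acc q d / ENNReal.ofReal q ^ d)
    Filter.atTop (nhds (ENNReal.ofReal C))

end

/-- Let `lam` be transcendental, let `K = KB ℂ lam` be the function field of the elliptic curve
`y ^ 2 = x (x - 1) (x - lam)`, and consider the sections of the twisted del Pezzo fibration.
The sections of height `d` are the orbits of the multiplicative group on `cone x y d`;
the components of odd prime height `d` have dimension at most `d`; for `m ≥ 2` there is a component
of height `2 m` of dimension at least `2 m + 1` that is not contained in a surface; and if the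
components of the collection `Acc` are contained in surfaces, then for no sufficiently large `q` the
counting function of the components outside `Acc` is asymptotic to `C q ^ d` with a constant
`C > 0`. -/
theorem result (lam : ℂ) (hlam : Transcendental ℚ lam) :
    HasRep (xB ℂ lam) (yB ℂ lam) ∧ UniqueRep (xB ℂ lam) (yB ℂ lam) ∧
    (∀ d : ℕ, d.Prime → Odd d → ∀ M : Set (Idx d → ℂ),
      IsComp (cone (xB ℂ lam) (yB ℂ lam) d) M → dimSec M ≤ d) ∧
    (∀ m : ℕ, 2 ≤ m → ∃ M : Set (Idx (2 * m) → ℂ),
      IsComp (cone (xB ℂ lam) (yB ℂ lam) (2 * m)) M ∧
      ¬ InSurface (xB ℂ lam) (yB ℂ lam) M ∧ 2 * m + 1 ≤ dimSec M) ∧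
    ∀ Acc : ∀ d, Set (Set (Idx d → ℂ)),
      (∀ d, ∀ M ∈ Acc d, InSurface (xB ℂ lam) (yB ℂ lam) M) →
      ∃ Q : ℝ, 1 ≤ Q ∧ ∀ q : ℝ, Q < q → ¬ Asymptotic (xB ℂ lam) (yB ℂ lam) Acc q := by
  obtain ⟨h1, h2, h3, h4, -⟩ := main lam hlam (xB ℂ lam) (yB ℂ lam) (modelB hlam)
  refine ⟨?_, ?_, h3, h4, fun Acc hAcc => ?_⟩
  · intro d g h hg hh hd
    obtain ⟨c, hc, f, hf⟩ := h1 d g h hg hh hd
    exact ⟨c, hc, f, hf⟩
  · rintro d c c' hc ⟨f, hf, h5, h6⟩
    exact h2 d c c' hc f hf h5 h6
  obtain ⟨Q, hQ⟩ := main2 lam hlam (xB ℂ lam) (yB ℂ lam) (modelB hlam) Acc hAcc
  exact ⟨max Q 1, le_max_right _ _, fun q hq => hQ q ((le_max_left _ _).trans_lt hq)⟩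

end Pool.Agent.Results.MP_8ae0c1_ag.EllipticTwist
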